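import Mathlib
import Pool.Agent.Y766.R7.Stm

/-!
# The square root on `1 + p ℤ / p^r`
-/

set_option autoImplicit false

namespace Pool.Agent.Y155.R7

open Pool.Agent.Y766.R7

variable {p r : ℕ}

theorem pi_pow : (p : ZMod (p ^ r)) ^ r = 0 := by
  have h : ((p ^ r : ℕ) : ZMod (p ^ r)) = 0 := ZMod.natCast_self _
  rw [← h]
  push_cast
  rfl

theorem unit_two (hp : p.Prime) (hp2 : p ≠ 2) (m : ZMod (p ^ r)) :
    IsUnit (2 + (p : ZMod (p ^ r)) * m) := by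
  have h2 : IsUnit (2 : ZMod (p ^ r)) := by
    have h3 : IsUnit ((2 : ℕ) : ZMod (p ^ r)) := by
      rw [ZMod.isUnit_iff_coprime]
      refine Nat.Coprime.pow_right r ?_
      exact (Nat.coprime_primes Nat.prime_two hp).2 hp2.symm
    exact_mod_cast h3
  have hn : IsNilpotent ((p : ZMod (p ^ r)) * m) := ⟨r, by rw [mul_pow, pi_pow, zero_mul]⟩
  exact hn.isUnit_add_left_of_commute h2 (Commute.all _ _)

theorem pow_one_of (hr : 1 ≤ r) (y : ZMod (p ^ r)) : (1 + p * y) ^ p ^ (r - 1) = 1 := by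
  have h := dvd_sub_pow_of_dvd_sub (R := ZMod (p ^ r)) (p := p) (a := 1 + p * y) (b := 1)
    ⟨y, by ring⟩ (r - 1)
  rw [Nat.sub_add_cancel hr, pi_pow, zero_dvd_iff, one_pow, sub_eq_zero] at h
  exact h

theorem sq_sq (hp : p.Prime) (hp2 : p ≠ 2) (hr : 1 ≤ r) (y : ZMod (p ^ r)) :
    sq p r (1 + p * y) ^ 2 = 1 + p * y := by
  unfold Pool.Agent.Y766.R7.sq
  have hodd : Odd (p ^ (r - 1)) := (hp.odd_of_ne_two hp2).pow
  obtain ⟨k, hk⟩ := hodd
  have e : (p ^ (r - 1) + 1) / 2 * 2 = p ^ (r - 1) + 1 := by omega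
  rw [← pow_mul, e, pow_succ, pow_one_of hr, one_mul]

theorem sq_form (a : ℕ) (y : ZMod (p ^ r)) : ∃ z : ZMod (p ^ r),
    sq p r (1 + (p : ZMod (p ^ r)) ^ a * y) = 1 + (p : ZMod (p ^ r)) ^ a * z := by
  unfold Pool.Agent.Y766.R7.sq
  obtain ⟨w, hw⟩ := sub_dvd_pow_sub_pow (1 + (p : ZMod (p ^ r)) ^ a * y) 1
    ((p ^ (r - 1) + 1) / 2)
  refine ⟨y * w, ?_⟩
  rw [one_pow] at hw
  linear_combination hw

theorem sq_unique (hp : p.Prime) (hp2 : p ≠ 2) (hr : 1 ≤ r) (y z : ZMod (p ^ r))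
    (h : (1 + p * z) ^ 2 = 1 + p * y) : sq p r (1 + p * y) = 1 + p * z := by
  obtain ⟨w, hw⟩ := sq_form (p := p) (r := r) 1 y
  rw [pow_one] at hw
  have h1 := sq_sq hp hp2 hr y
  rw [hw] at h1 ⊢
  have hu := unit_two hp hp2 (r := r) (w + z)
  have h2 : (2 + (p : ZMod (p ^ r)) * (w + z)) * ((1 + p * w) - (1 + p * z)) = 0 := by
    linear_combination h1 - h
  have h3 := (hu.mul_right_eq_zero).1 h2
  linear_combination h3

theorem sq_main : S_SQ := by
  intro p r hp hp2 hr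
  refine ⟨sq_sq hp hp2 hr, fun a y _ => sq_form a y, sq_unique hp hp2 hr, ?_, ?_⟩
  · intro x x' hx h7
    have h := sq_unique hp hp2 hr (4 * x')
      (x' * (2 - 2 * x + 4 * x ^ 2 - 10 * x ^ 3 + 28 * x ^ 4 - 84 * x ^ 5)) (by
        have e : (p : ZMod (p ^ r)) * (x' * (2 - 2 * x + 4 * x ^ 2 - 10 * x ^ 3 + 28 * x ^ 4 -
            84 * x ^ 5)) = x * (2 - 2 * x + 4 * x ^ 2 - 10 * x ^ 3 + 28 * x ^ 4 - 84 * x ^ 5) := by
          nth_rewrite 6 [hx]
          ring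
        rw [e]
        have e' : (p : ZMod (p ^ r)) * (4 * x') = 4 * x := by
          rw [hx]; ring
        rw [e']
        linear_combination (-528 + 660 * x - 1232 * x ^ 2 + 2464 * x ^ 3 - 4704 * x ^ 4 +
          7056 * x ^ 5) * h7)
    have e1 : (p : ZMod (p ^ r)) * (4 * x') = 4 * x := by
      rw [hx]; ring
    rw [e1] at h
    rw [h]
    linear_combination (-(2 - 2 * x + 4 * x ^ 2 - 10 * x ^ 3 + 28 * x ^ 4 - 84 * x ^ 5)) * hx
  · intro T t t' i2 ht hT h2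
    obtain ⟨w, hw⟩ := sq_form (p := p) (r := r) 1 t'
    rw [pow_one, ← ht] at hw
    have h1 := sq_sq hp hp2 hr t'
    rw [← ht, hw] at h1
    rw [hw]
    have hu := unit_two hp hp2 (r := r) (w + t' * i2)
    have h3 : (2 + (p : ZMod (p ^ r)) * (w + t' * i2)) *
        (T * (1 + p * w) - T * (1 + t * i2)) = 0 := by
      have e : (2 + (p : ZMod (p ^ r)) * (w + t' * i2)) = (1 + p * w) + (1 + t * i2) := by
        rw [ht]; ring
      rw [e]
      linear_combination T * h1 - i2 ^ 2 * hT - T * t * h2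
    exact sub_eq_zero.1 ((hu.mul_right_eq_zero).1 h3)

end Pool.Agent.Y155.R7
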